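import Pool.Agent.Lib_helper72.KXe.Dd

/-!
# The curve with `b = 1500`, `c = 60`: enumeration
-/

set_option autoImplicit false
set_option linter.all false
set_option maxRecDepth 100000

namespace Pool.Agent.KXe

open KX

lemma okc17 : OkC dat [0, 3, 6] := okC_of pkO lkO [
  ⟨[1, 1, 1], 3, 0x800, 0xa, 0xc8, [0, 0x140, 0xa1, 0, 0xa1, 0x140, 0, 0x191, 0x1e0, 0x191],
    [0x991, 0x22d000020040080141201404825002c8403817, 0x3af31002004008019100080704e0039000901a,
    0x40080100200400991, 0xc3c0002004008011e20080703f0032c406819,
    0x369e0002004008010f20140480400200403803, 0x2004008010020040080100200400991,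
    0x14e4100200400801320004008280039000a028, 0x2ec600020040080123201006819002c8407813, 0], 2,
    0x80300a01c0480b01a03c08813, 0x641, 0x6108c2118421⟩,
  ⟨[1, 2, 1], 4, 0x80000, 0xa, 0x88b8, [0, 0xdac0, 0x6d61, 0, 0x6d61, 0xdac0, 0, 0x11171, 0x14820,
    0x11171], [0x91171, 0x88f0922a000002000040000800010ba4000af402bc800090005a0000412c0001f5,
    0x5eb823731000020000400008000120da00057804c9018460006800004c990009c4,
    0x40000800010000200004000091171,
    0x73d4812c0000020000400008000128aa00057804c900f9300062000045b68805dd,
    0x2f409130000002000040000800010528200af402bc804f80000a000041a90003e9,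
    0x1000020000400008000100002000040000800010000200004000091171,
    0xc10c01f41000020000400008000143c6200004000081159000a0000040fa0009c4,
    0x7c7891f80000020000400008000115f4000af0041a803b40004a000042260807d1, 0], 2,
    0x800030000a0001c00048000b0001a0003c000880013, 0x445c1, 0x610942118421⟩] [
  ⟨[2, 1, 1], 0x40000, 0x4e20, [0x49c41,
    0x67e10fa0000010000400010004400010e10001e100a00026000004640000c800191,
    0x6a97d004000100004000100020000150dc000f000aa0164000005a2c00113006a4,
    0x40001000040001000040001000049c41,
    0x300894700000100004000100020000137dc400f000aa0207100006a30101db40ce5,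
    0x77813e80400010000400010004400013520001e100a001200000059c8000c800640,
    0x1000040001000040001000040001000040001000040001000049c41,
    0x510413884000100004000100050000129fe4006401c2404ed000046d60003e806d6,
    0x97e936b04000100004000100064000145ec0011800f000f4800005324000af00384,
    0x60a488b800001000040001000500001510e4006401c24148d0000603a101b5c08cb]⟩,
  ⟨[1, 1, 2], 0x40000, 0x4e20, [0x49c41,
    0x100019c8000004000100004000124e0401e100a001201000058d810050408c1000040010,
    0x16a66a3010000400010000400016a54000f000aa02070000069b80019f00a3c000040009,
    0x1000040001000040001000049c41,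
    0x8fa5a2c00000400010000400011e64400f000aa0164100005aa41014f4094d000040009,
    0xc18064000000400010000400010230001e100a0002610000455010050400f1000040010,
    0x40001000040001000040001000040001000040001000049c41,
    0x2035603a100004000100004000115ae0006401c24148c00006db40019c80fd2000040015,
    0x18fa13240000040001000040001067c4011800f000f4900005b80100f540745000040018,
    0x1c4d46d6000004000100004000111624006401c2404ec000046a400057c0032000040015]⟩,
  ⟨[1, 3, 1], 0x2000000, 0x381378, [0x27026f1,
    0x2d15784b5b6c20000010000008000004000002fa0500006ebe0083400014d0000007100059a8000004232802001d4c,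
    0x1becdc0ff3662000001000000800000400000201e1e000375f8071d18133fa40000380008f400000056ba5c0038c34,
    0x400000200000100000080000040000027026f1,
    0xf40da4e1708000000100000080000040000021b846000375f8071d180d6f8e000038000b8e800000475012202dc6d, 0x1ab0e04c288020000010000008000004000002c2e7a0006ebe008340005670000007100029a00000041656c200afc9,
    0x20000010000008000004000002000001000000800000400000200000100000080000040000027026f1,
    0x3cd7461f383000000010000008000004000003e72949013ddf815781c0fe2a600008c000c2100000046c084002dc6c,
    0x3306fc58a5602000001000000800000400000385c4f0020d0000c4e000507000000a900024080000049b460201d4c1,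
    0x15405020d2580000001000000800000400000308c799013ddf815781c01a87600008c00044780000045265c00124f9]⟩] (by decide +kernel) (by decide +kernel) (by decide +kernel)

end Pool.Agent.KXe
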