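import Pool.Agent.Lib_helper72.KX.Nf
import Pool.Agent.Lib_helper72.KXe.ClD
import Pool.Agent.Lib_helper72.KXe.C

/-!
# The curve with `b = 1500`, `c = 60`: the classes under translation
-/

set_option autoImplicit false

namespace Pool.Agent.KXe

open KX KC72

/-- the packed generators at the next point -/
noncomputable def ptd : PT := ⟨512, 324518553658426726783156020576256, 6, 12, [
  1,
  512,
  262144,
  134217728,
  68719476736,
  35184372088832,
  18014398509481984,
  9223372036854775808,
  4722366482869645213696,
  2417851639229258349412352,
  1237940039285380274899124224,
  633825300114114700748351602688], [
  1902718676084907976221024845822,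
  1902718676084925990619534327294,
  635068075865919925975313547262,
  1268895798554022324453016338430,
  1902709014123083989673826058238,
  3805437352169833931656187084285,
  2537786751950827902196338392573,
  1903963874410718878391475109885,
  3171604807954739831257197182973,
  2417851639229258349412352,
  1237940039285380274899124224,
  633825300114114700748351602688],
  [false, true, true, true, true, false, true, true, true, false, false, false]⟩

lemma ptO : ptd.Ok T8 where
  PB := by decide +kernel
  R := by decide +kernel
  S := by decide +kernel
  bT := by decide +kernel
  lT := by decide +kernel
  bN := by decide +kernel
  b0 := by decide +kernel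

lemma nx_ok : ∀ c < cls.length, nxC T8 cls nxt c = true := nx_of ptO (by decide +kernel)

lemma rk_ok : ∀ c < cls.length, rkC bp cls nxt rk c = true := rk_of cls_len (by decide +kernel)

end Pool.Agent.KXe
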